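import Pool.Agent.MPab1e31.HypFinal

/-!
# Even degree: balancing a relation with an automorphism, and moving a root to infinity
-/

open Polynomial

namespace Pool.Agent.MPab1e31.Ev

section Balance

variable {E : Type*} [Field E] [CharZero E]

omit [CharZero E] in
lemma eval_map_fix (σ : E →+* E) (p : E[X]) {t : E} (ht : σ t = t) :
    (p.map σ).eval t = σ (p.eval t) := by
  conv_lhs => rw [← ht]
  rw [eval_map, eval₂_at_apply]

/-- Balancing: from a function with divisor `n P` up to the points at infinity and an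
automorphism which maps `P` to its conjugate and fixes the points at infinity, one gets a function
with divisor `2 n P - n (∞₊ + ∞₋)`. -/
theorem balance (σ : E →+* E) (f : E[X]) (hf : f.map σ = f) (m : ℕ) (hdeg : f.natDegree = 2 * m)
    (β : E) (hβ : β ^ 2 = f.leadingCoeff) (hσβ : σ β = β) (t s : E) (hσt : σ t = t)
    (hσs : σ s = -s) (hs : s ^ 2 = f.eval t) (hs0 : s ≠ 0) (A B : E[X]) (c : E) (hc : c ≠ 0)
    (n : ℕ) (hn : n ≠ 0) (hN : A ^ 2 - f * B ^ 2 = C c * (X - C t) ^ n) (hB : B.eval t ≠ 0) :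
    ∃ (A' B' : E[X]) (c' : E), c' ≠ 0 ∧ A' ^ 2 - f * B' ^ 2 = C c' * (X - C t) ^ (2 * n) ∧
      B'.eval t ≠ 0 ∧ A'.natDegree ≤ n ∧ B'.natDegree + m ≤ n := by
  have hfne : f ≠ 0 := by
    rintro rfl
    rw [eval_zero] at hs
    exact hs0 (pow_eq_zero_iff (by norm_num) |>.mp hs)
  have hBne : B ≠ 0 := by rintro rfl; simp at hB
  have hβ0 : β ≠ 0 := by
    rintro rfl
    have h1 : f.leadingCoeff = 0 := by rw [← hβ]; norm_num
    exact hfne (leadingCoeff_eq_zero.mp h1)
  set A₁ := A.map σ with hA₁
  set B₁ := B.map σ with hB₁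
  have hN₁ : A₁ ^ 2 - f * B₁ ^ 2 = C (σ c) * (X - C t) ^ n := by
    have h1 := congrArg (Polynomial.map σ) hN
    simp only [Polynomial.map_sub, Polynomial.map_pow, Polynomial.map_mul, map_C, map_X, hf,
      hσt] at h1
    exact h1
  have hA₁t : A₁.eval t = σ (A.eval t) := eval_map_fix σ A hσt
  have hB₁t : B₁.eval t = σ (B.eval t) := eval_map_fix σ B hσt
  have hB₁t0 : B₁.eval t ≠ 0 := by
    rw [hB₁t]
    exact (_root_.map_ne_zero σ).mpr hB
  set A' := A * A₁ - f * (B * B₁) with hA'
  set B' := B * A₁ - A * B₁ with hB'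
  have hnorm : A' ^ 2 - f * B' ^ 2 = C (c * σ c) * (X - C t) ^ (2 * n) := by
    have h1 : A' ^ 2 - f * B' ^ 2 = (A ^ 2 - f * B ^ 2) * (A₁ ^ 2 - f * B₁ ^ 2) := by
      rw [hA', hB']; ring
    rw [h1, hN, hN₁, C_mul, two_mul, pow_add]; ring
  have hAt2 : A.eval t ^ 2 = (s * B.eval t) ^ 2 := by
    have h1 := congrArg (eval t) hN
    simp only [eval_sub, eval_pow, eval_mul, eval_C, eval_X, sub_self] at h1
    rw [zero_pow hn, ← hs] at h1
    linear_combination h1
  have h2 : (2 : E) ≠ 0 := two_ne_zero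
  have hB't : B'.eval t ≠ 0 := by
    have e0 : B'.eval t = B.eval t * A₁.eval t - A.eval t * B₁.eval t := by
      rw [hB', eval_sub, eval_mul, eval_mul]
    rcases sq_eq_sq_iff_eq_or_eq_neg.mp hAt2 with h | h
    · have e1 : B'.eval t = -(2 * s * B.eval t * B₁.eval t) := by
        rw [e0, hA₁t, h, map_mul, hσs, ← hB₁t]; ring
      rw [e1]
      exact neg_ne_zero.mpr (mul_ne_zero (mul_ne_zero (mul_ne_zero h2 hs0) hB) hB₁t0)
    · have e1 : B'.eval t = 2 * s * B.eval t * B₁.eval t := by
        rw [e0, hA₁t, h, map_neg, map_mul, hσs, ← hB₁t]; ring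
      rw [e1]
      exact mul_ne_zero (mul_ne_zero (mul_ne_zero h2 hs0) hB) hB₁t0
  have hB'ne : B' ≠ 0 := by
    intro h0
    rw [h0, eval_zero] at hB't
    exact hB't rfl
  -- degrees
  have hdA₁ : A₁.natDegree = A.natDegree := natDegree_map σ
  have hdB₁ : B₁.natDegree = B.natDegree := natDegree_map σ
  have hdA2 : (A ^ 2).natDegree = 2 * A.natDegree := natDegree_pow _ _
  have hdB2 : (f * B ^ 2).natDegree = 2 * m + 2 * B.natDegree := by
    rw [natDegree_mul hfne (pow_ne_zero _ hBne), hdeg, natDegree_pow]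
  have hdN : (A ^ 2 - f * B ^ 2).natDegree = n := by
    rw [hN, natDegree_C_mul hc, natDegree_pow, natDegree_X_sub_C, mul_one]
  have hdN₁ : (A₁ ^ 2 - f * B₁ ^ 2).natDegree = n := by
    rw [hN₁, natDegree_C_mul ((_root_.map_ne_zero σ).mpr hc), natDegree_pow, natDegree_X_sub_C,
      mul_one]
  have hdeg' : B'.natDegree + m ≤ n := by
    by_cases hsmall : 2 * A.natDegree ≤ n ∧ 2 * (m + B.natDegree) ≤ n
    · have e1 : (B * A₁).natDegree ≤ B.natDegree + A.natDegree := by
        have := natDegree_mul_le (p := B) (q := A₁)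
        omega
      have e2 : (A * B₁).natDegree ≤ B.natDegree + A.natDegree := by
        have := natDegree_mul_le (p := A) (q := B₁)
        omega
      have e3 : B'.natDegree ≤ B.natDegree + A.natDegree :=
        (natDegree_sub_le _ _).trans (max_le e1 e2)
      omega
    · have hab : A.natDegree = m + B.natDegree ∧ n < 2 * A.natDegree := by
        rcases lt_trichotomy (f * B ^ 2).natDegree (A ^ 2).natDegree with h | h | h
        · have := natDegree_sub_eq_left_of_natDegree_lt h
          omega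
        · omega
        · have := natDegree_sub_eq_right_of_natDegree_lt h
          omega
      obtain ⟨hab, hlt⟩ := hab
      -- leading coefficients
      have hlc : A.leadingCoeff ^ 2 = (β * B.leadingCoeff) ^ 2 := by
        have e1 : (A ^ 2 - f * B ^ 2).coeff (2 * A.natDegree) = 0 :=
          coeff_eq_zero_of_natDegree_lt (by omega)
        have e2 : (A ^ 2).coeff (2 * A.natDegree) = A.leadingCoeff ^ 2 :=
          coeff_pow_mul_natDegree A 2
        have e3 : (f * B ^ 2).coeff (2 * A.natDegree) = f.leadingCoeff * B.leadingCoeff ^ 2 := by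
          have e4 : 2 * A.natDegree = (f * B ^ 2).natDegree := by omega
          rw [e4, coeff_natDegree, leadingCoeff_mul, leadingCoeff_pow]
        rw [coeff_sub, e2, e3, ← hβ] at e1
        linear_combination e1
      set D := A * B₁ + A₁ * B with hD
      have hDc : D.coeff (A.natDegree + B.natDegree) ≠ 0 := by
        have e1 : (A * B₁).coeff (A.natDegree + B.natDegree) = A.leadingCoeff * σ B.leadingCoeff := by
          have := coeff_mul_degree_add_degree A B₁
          rw [hdB₁, leadingCoeff_map] at this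
          exact this
        have e2 : (A₁ * B).coeff (A.natDegree + B.natDegree) = σ A.leadingCoeff * B.leadingCoeff := by
          have := coeff_mul_degree_add_degree A₁ B
          rw [hdA₁, leadingCoeff_map] at this
          exact this
        have hb0 : B.leadingCoeff ≠ 0 := leadingCoeff_ne_zero.mpr hBne
        have hb1 : σ B.leadingCoeff ≠ 0 := (_root_.map_ne_zero σ).mpr hb0
        rw [hD, coeff_add, e1, e2]
        rcases sq_eq_sq_iff_eq_or_eq_neg.mp hlc with h | h
        · have e3 : A.leadingCoeff * σ B.leadingCoeff + σ A.leadingCoeff * B.leadingCoeff =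
              2 * β * B.leadingCoeff * σ B.leadingCoeff := by
            rw [h, map_mul, hσβ]; ring
          rw [e3]
          exact mul_ne_zero (mul_ne_zero (mul_ne_zero h2 hβ0) hb0) hb1
        · have e3 : A.leadingCoeff * σ B.leadingCoeff + σ A.leadingCoeff * B.leadingCoeff =
              -(2 * β * B.leadingCoeff * σ B.leadingCoeff) := by
            rw [h, map_neg, map_mul, hσβ]; ring
          rw [e3]
          exact neg_ne_zero.mpr (mul_ne_zero (mul_ne_zero (mul_ne_zero h2 hβ0) hb0) hb1)
      have hDne : D ≠ 0 := by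
        intro h0
        rw [h0, coeff_zero] at hDc
        exact hDc rfl
      have hDdeg : A.natDegree + B.natDegree ≤ D.natDegree := le_natDegree_of_ne_zero hDc
      have hid : B' * D = (A₁ ^ 2 - f * B₁ ^ 2) * B ^ 2 - (A ^ 2 - f * B ^ 2) * B₁ ^ 2 := by
        rw [hB', hD]; ring
      have hle : (B' * D).natDegree ≤ n + 2 * B.natDegree := by
        rw [hid]
        refine (natDegree_sub_le _ _).trans (max_le ?_ ?_)
        · have e1 := natDegree_mul_le (p := A₁ ^ 2 - f * B₁ ^ 2) (q := B ^ 2)
          have e2 : (B ^ 2).natDegree = 2 * B.natDegree := natDegree_pow _ _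
          omega
        · have e1 := natDegree_mul_le (p := A ^ 2 - f * B ^ 2) (q := B₁ ^ 2)
          have e2 : (B₁ ^ 2).natDegree = 2 * B₁.natDegree := natDegree_pow _ _
          omega
      rw [natDegree_mul hB'ne hDne] at hle
      omega
  refine ⟨A', B', c * σ c, mul_ne_zero hc ((_root_.map_ne_zero σ).mpr hc), hnorm, hB't, ?_, hdeg'⟩
  have e1 : A' ^ 2 = f * B' ^ 2 + C (c * σ c) * (X - C t) ^ (2 * n) := by
    rw [← hnorm]; ring
  have e2 : (A' ^ 2).natDegree = 2 * A'.natDegree := natDegree_pow _ _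
  have e3 : (A' ^ 2).natDegree ≤ 2 * n := by
    rw [e1]
    refine (natDegree_add_le _ _).trans (max_le ?_ ?_)
    · rw [natDegree_mul hfne (pow_ne_zero _ hB'ne), hdeg, natDegree_pow]
      omega
    · refine (natDegree_C_mul_le _ _).trans ?_
      rw [natDegree_pow, natDegree_X_sub_C, mul_one]
  omega

end Balance

section Mobius

variable {E : Type*} [Field E]

/-- `x ^ n p (e + 1 / x)`. -/
noncomputable def mob (e : E) (n : ℕ) (p : E[X]) : E[X] := reflect n (taylor e p)

lemma mob_mul (e : E) {n k : ℕ} {p q : E[X]} (hp : p.natDegree ≤ n) (hq : q.natDegree ≤ k) :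
    mob e (n + k) (p * q) = mob e n p * mob e k q := by
  rw [mob, taylor_mul, reflect_mul]
  · rfl
  · rwa [natDegree_taylor]
  · rwa [natDegree_taylor]

lemma mob_sub (e : E) (n : ℕ) (p q : E[X]) : mob e n (p - q) = mob e n p - mob e n q := by
  rw [mob, map_sub, reflect_sub]
  rfl

lemma mob_sq (e : E) {n : ℕ} {p : E[X]} (hp : p.natDegree ≤ n) :
    mob e (2 * n) (p ^ 2) = mob e n p ^ 2 := by
  rw [two_mul, sq, mob_mul e hp hp, sq]

lemma mob_C_mul (e : E) (n : ℕ) (a : E) (p : E[X]) : mob e n (C a * p) = C a * mob e n p := by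
  rw [mob, taylor_mul, taylor_C, reflect_C_mul]
  rfl

lemma mob_X_sub (e t : E) : mob e 1 (X - C t) = 1 - C (t - e) * X := by
  have h1 : taylor e (X - C t) = X + C (e - t) := by
    rw [map_sub, taylor_X, taylor_C, C_sub]; ring
  rw [mob, h1, reflect_add, reflect_one_X, reflect_C, pow_one, C_sub, C_sub]; ring

lemma mob_X_sub_pow (e t : E) (n : ℕ) : mob e n ((X - C t) ^ n) = (1 - C (t - e) * X) ^ n := by
  induction n with
  | zero =>
    rw [pow_zero, pow_zero, mob, taylor_one, reflect_C, C_1, pow_zero, one_mul]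
  | succ n ih =>
    rw [pow_succ, mob_mul, ih, mob_X_sub, pow_succ]
    · rw [natDegree_pow, natDegree_X_sub_C, mul_one]
    · rw [natDegree_X_sub_C]

/-- evaluation -/
lemma mob_eval (e : E) {n : ℕ} {p : E[X]} (hp : p.natDegree ≤ n) {x : E} (hx : x ≠ 0) :
    (mob e n p).eval x = x ^ n * p.eval (e + 1 / x) := by
  have hx' : x⁻¹ ≠ 0 := inv_ne_zero hx
  letI : Invertible (x⁻¹) := invertibleOfNonzero hx'
  have h1 := eval₂_reflect_mul_pow (RingHom.id E) (x⁻¹) n (taylor e p)
    (by rwa [natDegree_taylor])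
  rw [invOf_eq_inv, inv_inv] at h1
  have h2 : ((taylor e p).reflect n).eval x * x⁻¹ ^ n = (taylor e p).eval x⁻¹ := h1
  rw [taylor_eval] at h2
  have h3 : x ^ n * x⁻¹ ^ n = 1 := by
    rw [← mul_pow, mul_inv_cancel₀ hx, one_pow]
  have h4 : (mob e n p).eval x = ((taylor e p).reflect n).eval x * (x ^ n * x⁻¹ ^ n) := by
    rw [h3, mul_one]
    rfl
  rw [h4, one_div, add_comm e x⁻¹, ← h2]
  ring

end Mobius

end Pool.Agent.MPab1e31.Ev
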