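import Pool.Agent.MPab1e31Ev.Bal

/-!
# Even degree: non-torsion
-/

open Polynomial

namespace Pool.Agent.MPab1e31.Ev

open Pool.Agent.MPab1e31 Pool.Agent.MPab1e31.Hyp

section Rel

variable {E : Type*} [Field E] [CharZero E]

/-- If a power of the ideal of a point is principal, then there is a relation. -/
theorem exists_relation (f : E[X]) [hdom : IsDomain (CRing f)] (t s : E) (hs : s ^ 2 = f.eval t)
    (hs0 : s ≠ 0) (n : ℕ) (hn : n ≠ 0) (hprin : (ptIdeal f t s ^ n).IsPrincipal) :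
    ∃ (A B : E[X]) (c : E), c ≠ 0 ∧ A ^ 2 - f * B ^ 2 = C c * (X - C t) ^ n ∧ B.eval t ≠ 0 := by
  obtain ⟨g, hg⟩ := hprin
  obtain ⟨A, B, rfl⟩ := exists_elt f g
  have hg' : ptIdeal f t s ^ n = Ideal.span {elt f A B} := hg
  have hgc : ptIdeal f t (-s) ^ n = Ideal.span {elt f A (-B)} := by
    rw [← map_conj_ptIdeal, ← Ideal.map_pow, hg', Ideal.map_span, Set.image_singleton, conj_elt]
  have hXne : elt f (X - C t) 0 ≠ 0 := by
    intro h0
    exact X_sub_C_ne_zero t (elt_eq_zero h0).1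
  have hpow : ∀ m : ℕ, elt f (X - C t) 0 ^ m = elt f ((X - C t) ^ m) 0 := by
    intro m
    induction m with
    | zero => simp [elt]
    | succ m ih => rw [pow_succ, ih, elt_mul, pow_succ]; congr 1 <;> ring
  have hnorm : elt f A B * elt f A (-B) = elt f (A ^ 2 - f * B ^ 2) 0 := by
    rw [elt_mul]; congr 1 <;> ring
  have hspan : Ideal.span {elt f (A ^ 2 - f * B ^ 2) 0} =
      Ideal.span {elt f ((X - C t) ^ n) 0} := by
    rw [← hnorm, ← Ideal.span_singleton_mul_span_singleton, ← hg', ← hgc, ← mul_pow,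
      ptIdeal_mul f t s hs hs0, Ideal.span_singleton_pow, hpow]
  rw [Ideal.span_singleton_eq_span_singleton] at hspan
  obtain ⟨u, hu⟩ := hspan.symm
  obtain ⟨a, b, hab⟩ := exists_elt f (u : CRing f)
  obtain ⟨a', b', hab'⟩ := exists_elt f ((u⁻¹ : (CRing f)ˣ) : CRing f)
  rw [hab, elt_mul] at hu
  obtain ⟨h1, h2⟩ := elt_injective hu
  have hp0 : (X - C t : E[X]) ^ n ≠ 0 := pow_ne_zero _ (X_sub_C_ne_zero t)
  have hb : b = 0 := by
    have h3 : (X - C t) ^ n * b = 0 := by linear_combination h2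
    exact (mul_eq_zero.mp h3).resolve_left hp0
  have haa' : a * a' = 1 := by
    have h3 : (u : CRing f) * ((u⁻¹ : (CRing f)ˣ) : CRing f) = 1 := u.mul_inv
    have h4 : (1 : CRing f) = elt f 1 0 := by simp [elt]
    rw [hab, hab', hb, elt_mul, h4] at h3
    have := (elt_injective h3).1
    linear_combination this
  obtain ⟨c, hc, hca⟩ := Polynomial.isUnit_iff.mp (IsUnit.of_mul_eq_one _ haa')
  have hc0 : c ≠ 0 := hc.ne_zero
  have hN : A ^ 2 - f * B ^ 2 = C c * (X - C t) ^ n := by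
    rw [hca]; linear_combination -h1
  refine ⟨A, B, c, hc0, hN, ?_⟩
  intro hBt
  -- then `x - t` divides `A` and `B`
  have hAt : A.eval t = 0 := by
    have h3 := congrArg (eval t) hN
    simp only [eval_sub, eval_pow, eval_mul, eval_C, eval_X, sub_self, hBt] at h3
    rw [zero_pow hn] at h3
    have h4 : A.eval t ^ 2 = 0 := by linear_combination h3
    exact pow_eq_zero_iff (by norm_num) |>.mp h4
  obtain ⟨A₁, hA₁⟩ := dvd_iff_isRoot.mpr hAt
  obtain ⟨B₁, hB₁⟩ := dvd_iff_isRoot.mpr hBt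
  have hfac : elt f A B = elt f (X - C t) 0 * elt f A₁ B₁ := by
    rw [elt_mul, hA₁, hB₁]; congr 1 <;> ring
  obtain ⟨m, rfl⟩ : ∃ m, n = m + 1 := ⟨n - 1, by omega⟩
  have h5 : Ideal.span {elt f (X - C t) 0} * ptIdeal f t s ^ m =
      Ideal.span {elt f (X - C t) 0} * (Ideal.span {elt f A₁ B₁} * ptIdeal f t (-s)) := by
    calc Ideal.span {elt f (X - C t) 0} * ptIdeal f t s ^ m
        = ptIdeal f t s ^ (m + 1) * ptIdeal f t (-s) := by
          rw [← ptIdeal_mul f t s hs hs0, pow_succ (ptIdeal f t s) m, mul_assoc, mul_assoc,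
            mul_comm (ptIdeal f t (-s)) (ptIdeal f t s ^ m), ← mul_assoc,
            mul_comm (ptIdeal f t s) (ptIdeal f t s ^ m), mul_assoc]
      _ = _ := by
          rw [hg', hfac, ← Ideal.span_singleton_mul_span_singleton, mul_assoc]
  have h6 : ptIdeal f t s ^ m = Ideal.span {elt f A₁ B₁} * ptIdeal f t (-s) :=
    (Ideal.span_singleton_mul_right_inj hXne).mp h5
  have h7 : elt f (-C s) 1 ^ m ∈ ptIdeal f t (-s) := by
    have h8 : elt f (-C s) 1 ^ m ∈ ptIdeal f t s ^ m :=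
      Ideal.pow_mem_pow (Ideal.subset_span (by simp)) m
    have h8' : Ideal.span {elt f A₁ B₁} * ptIdeal f t (-s) ≤ ptIdeal f t (-s) :=
      Ideal.mul_le_right
    exact h8' (h6 ▸ h8)
  obtain ⟨ev, hev⟩ := exists_eval f t (-s) (by rw [neg_sq]; exact hs)
  have h9 : ptIdeal f t (-s) ≤ RingHom.ker ev := by
    rw [ptIdeal, Ideal.span_le]
    rintro _ (rfl | rfl)
    · rw [SetLike.mem_coe, RingHom.mem_ker, hev]; simp
    · rw [SetLike.mem_coe, RingHom.mem_ker, hev]; simp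
  have h10 : ev (elt f (-C s) 1 ^ m) = 0 := RingHom.mem_ker.mp (h9 h7)
  rw [map_pow, hev] at h10
  have h12 : (eval t (-C s) + eval t 1 * -s : E) ≠ 0 := by
    simp only [eval_neg, eval_C, eval_one, one_mul]
    have : (-s + -s : E) = -(2 * s) := by ring
    rw [this]
    exact neg_ne_zero.mpr (mul_ne_zero two_ne_zero hs0)
  exact pow_ne_zero m h12 h10

/-- No relation for points with `2`-adically large abscissa. -/
theorem no_relation_large [IsAlgClosed E] {v : AbsoluteValue E ℝ} (hv : IsNonarchimedean v)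
    (hv2 : v 2 < 1) (f : E[X]) (hmon : f.Monic) (hodd : Odd f.natDegree)
    (h3 : 3 ≤ f.natDegree) :
    ∃ K : ℝ, 0 ≤ K ∧ ∀ t : E, K < v t → f.eval t ≠ 0 ∧
      ∀ (A B : E[X]) (c : E) (n : ℕ), c ≠ 0 → n ≠ 0 → A ^ 2 - f * B ^ 2 = C c * (X - C t) ^ n →
        B.eval t ≠ 0 → False := by
  obtain ⟨g, hg⟩ := hodd
  have hg1 : 1 ≤ g := by omega
  have h2pos : 0 < v (2 : E) := v.pos two_ne_zero
  set M : ℝ := max 1 (gn v f) with hM
  have hM0 : 0 < M := lt_of_lt_of_le one_pos (le_max_left _ _)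
  obtain ⟨k, hk⟩ := exists_pow_lt_of_lt_one (one_div_pos.mpr hM0) hv2
  set μ : E := (2 ^ k)⁻¹ with hμ
  have hμ0 : μ ≠ 0 := inv_ne_zero (pow_ne_zero _ two_ne_zero)
  have hvμ : v μ = (v 2 ^ k)⁻¹ := by rw [hμ, map_inv₀, map_pow]
  have hMμ : M ≤ v μ := by
    rw [hvμ, le_inv_comm₀ hM0 (by positivity), ← one_div]
    exact hk.le
  have hμ1 : 1 ≤ v μ := (le_max_left _ _).trans hMμ
  have hfμ : gn v f ≤ v μ := (le_max_right _ _).trans hMμ
  -- the scaled polynomial
  set f₁ : E[X] := scaleRoots f μ⁻¹ with hf₁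
  have hcoeff : ∀ i, f₁.coeff i = f.coeff i * μ⁻¹ ^ (f.natDegree - i) := fun i =>
    coeff_scaleRoots f μ⁻¹ i
  have hmon₁ : f₁.Monic := by
    rw [hf₁]; exact (monic_scaleRoots_iff _).mpr hmon
  have hdeg₁ : f₁.natDegree = 2 * g + 1 := by rw [hf₁, natDegree_scaleRoots, hg]
  have hint₁ : ∀ i, v (f₁.coeff i) ≤ 1 := by
    intro i
    rcases lt_trichotomy i f.natDegree with h | h | h
    · rw [hcoeff, map_mul, map_pow, map_inv₀]
      obtain ⟨d, hd⟩ : ∃ d, f.natDegree - i = d + 1 := ⟨f.natDegree - i - 1, by omega⟩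
      rw [hd, pow_succ]
      have e1 : (v μ)⁻¹ ^ d ≤ 1 := pow_le_one₀ (by positivity) (inv_le_one_of_one_le₀ hμ1)
      have e2 : v (f.coeff i) * (v μ)⁻¹ ≤ 1 := by
        rw [← div_eq_mul_inv, div_le_one (by linarith)]
        exact (coeff_le f i).trans hfμ
      have e3 : 0 ≤ v (f.coeff i) * (v μ)⁻¹ := mul_nonneg (v.nonneg _) (by positivity)
      calc v (f.coeff i) * ((v μ)⁻¹ ^ d * (v μ)⁻¹) = (v (f.coeff i) * (v μ)⁻¹) * (v μ)⁻¹ ^ d := by
            ring
        _ ≤ 1 * 1 := mul_le_mul e2 e1 (by positivity) zero_le_one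
        _ = 1 := one_mul 1
    · rw [h, hcoeff, Nat.sub_self, pow_zero, mul_one, hmon.coeff_natDegree, map_one]
    · rw [hcoeff, coeff_eq_zero_of_natDegree_lt h, zero_mul, map_zero]; exact zero_le_one
  have hcomp : f.comp (C μ * X) = C (μ ^ (2 * g + 1)) * f₁ := by
    ext j
    rw [comp_C_mul_X_coeff, coeff_C_mul, hcoeff, hg]
    rcases le_or_gt j (2 * g + 1) with h | h
    · have e1 : μ ^ (2 * g + 1) = μ ^ j * μ ^ (2 * g + 1 - j) := by
        rw [← pow_add]; congr 1; omega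
      have e3 : μ ^ (2 * g + 1 - j) * μ⁻¹ ^ (2 * g + 1 - j) = 1 := by
        rw [← mul_pow, mul_inv_cancel₀ hμ0, one_pow]
      rw [e1]
      linear_combination (-(f.coeff j * μ ^ j)) * e3
    · rw [coeff_eq_zero_of_natDegree_lt (by omega)]; ring
  obtain ⟨ν, hν⟩ := IsAlgClosed.exists_pow_nat_eq (μ ^ (2 * g + 1)) (n := 2) (by norm_num)
  have hν0 : ν ≠ 0 := by
    rintro rfl
    have : μ ^ (2 * g + 1) ≠ 0 := pow_ne_zero _ hμ0
    apply this
    rw [← hν]; norm_num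
  refine ⟨v μ, v.nonneg _, fun t ht => ?_⟩
  have htμ : 1 < v (t / μ) := by
    rw [map_div₀, lt_div_iff₀ (by linarith), one_mul]; exact ht
  have hft : f.eval t ≠ 0 := by
    have e1 := eval_ne_zero_of_large hv f₁ hmon₁ hint₁ (t / μ) htμ
    have e2 := congrArg (eval (t / μ)) hcomp
    rw [eval_comp, eval_mul, eval_mul, eval_C, eval_C, eval_X, mul_div_cancel₀ t hμ0] at e2
    rw [e2]
    exact mul_ne_zero (pow_ne_zero _ hμ0) e1
  refine ⟨hft, fun A B c n hc hn hN hB => ?_⟩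
  refine no_relation hv hv2 f₁ g hg1 hmon₁ hdeg₁ hint₁ (t / μ) htμ (A.comp (C μ * X))
    (C ν * B.comp (C μ * X)) (c * μ ^ n) (mul_ne_zero hc (pow_ne_zero _ hμ0)) n hn ?_ ?_
  · have e1 := congrArg (fun p => p.comp (C μ * X)) hN
    simp only [sub_comp, mul_comp, pow_comp, C_comp, X_comp, hcomp] at e1
    have e2 : (C μ * X - C t : E[X]) = C μ * (X - C (t / μ)) := by
      rw [mul_sub, ← C_mul, mul_div_cancel₀ t hμ0]
    rw [e2, mul_pow, ← C_pow, ← mul_assoc, ← C_mul] at e1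
    rw [← e1, ← hν, C_pow]; ring
  · rw [eval_mul, eval_C, eval_comp, eval_mul, eval_C, eval_X, mul_div_cancel₀ t hμ0]
    exact mul_ne_zero hν0 hB


end Rel

section Even

variable {E : Type*} [Field E] [CharZero E]

omit [CharZero E] in
/-- The polynomial at infinity. -/
theorem exists_model (f : E[X]) (m : ℕ) (hm : 1 ≤ m) (hdeg : f.natDegree = 2 * m) (e : E)
    (he : f.eval e = 0) (he' : f.derivative.eval e ≠ 0) :
    ∃ f₁ : E[X], f₁.Monic ∧ f₁.natDegree = 2 * m - 1 ∧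
      mob e (2 * m) f = C (f.derivative.eval e) * f₁ := by
  set a := f.derivative.eval e with ha
  set F := mob e (2 * m) f with hF
  have hc0 : ∀ i, F.coeff i = (taylor e f).coeff (revAt (2 * m) i) := fun i => by
    rw [hF, mob, coeff_reflect]
  have hc1 : F.coeff (2 * m - 1) = a := by
    rw [hc0, revAt_le (by omega), show 2 * m - (2 * m - 1) = 1 by omega, taylor_coeff_one]
  have hc2 : F.coeff (2 * m) = 0 := by
    rw [hc0, revAt_le le_rfl, Nat.sub_self, taylor_coeff_zero, he]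
  have hle : F.natDegree ≤ 2 * m := by
    have h1 := natDegree_reflect_le (N := 2 * m) (p := taylor e f)
    rw [natDegree_taylor, hdeg, max_self] at h1
    exact h1
  have hle' : F.natDegree ≤ 2 * m - 1 := by
    rw [natDegree_le_iff_coeff_eq_zero]
    intro N hN
    rcases eq_or_ne N (2 * m) with rfl | hne
    · exact hc2
    · exact coeff_eq_zero_of_natDegree_lt (by omega)
  have hd : F.natDegree = 2 * m - 1 := le_antisymm hle' (le_natDegree_of_ne_zero (by rw [hc1]; exact he'))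
  have hlc : F.leadingCoeff = a := by rw [leadingCoeff, hd, hc1]
  refine ⟨C a⁻¹ * F, ?_, ?_, ?_⟩
  · rw [Monic, leadingCoeff_mul, leadingCoeff_C, hlc, inv_mul_cancel₀ he']
  · rw [natDegree_C_mul (inv_ne_zero he'), hd]
  · rw [← mul_assoc, ← C_mul, mul_inv_cancel₀ he', C_1, one_mul]

/-- Points near a branch point `e` are non-torsion in the class group of the affine curve of
even degree, provided that some automorphism fixes everything but the ordinate. -/
theorem even_nontorsion [IsAlgClosed E] {v : AbsoluteValue E ℝ} (hv : IsNonarchimedean v)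
    (hv2 : v 2 < 1) (f : E[X]) [IsDomain (CRing f)] (m : ℕ) (hm : 2 ≤ m)
    (hdeg : f.natDegree = 2 * m) (e κ β : E) (hκ : κ ≠ 0) (hβ : β ^ 2 = f.leadingCoeff)
    (f₁ : E[X]) (hmon : f₁.Monic) (hd₁ : f₁.natDegree = 2 * m - 1)
    (hf₁ : mob e (2 * m) f = C (κ ^ 2) * f₁) :
    ∃ K : ℝ, 0 ≤ K ∧ ∀ x r : E, r ^ 2 = f₁.eval x → K < v x →
      x ≠ 0 ∧ (κ * r / x ^ m) ^ 2 = f.eval (e + 1 / x) ∧ κ * r / x ^ m ≠ 0 ∧
      ∀ σ : E →+* E, f.map σ = f → σ e = e → σ κ = κ → σ β = β → σ x = x → σ r = -r →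
        ∀ n : ℕ, n ≠ 0 → ¬ (ptIdeal f (e + 1 / x) (κ * r / x ^ m) ^ n).IsPrincipal := by
  obtain ⟨K, hK0, hK⟩ := no_relation_large hv hv2 f₁ hmon ⟨m - 1, by omega⟩ (by omega)
  refine ⟨K, hK0, fun x r hr hx => ?_⟩
  obtain ⟨hne, hrel⟩ := hK x hx
  have hx0 : x ≠ 0 := by
    rintro rfl
    rw [map_zero] at hx
    linarith
  have hr0 : r ≠ 0 := by
    rintro rfl
    apply hne
    rw [← hr]; norm_num
  have hval : (κ * r / x ^ m) ^ 2 = f.eval (e + 1 / x) := by
    have h1 := mob_eval e (n := 2 * m) (p := f) (by omega) hx0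
    rw [hf₁, eval_mul, eval_C, ← hr] at h1
    rw [div_pow, ← pow_mul, mul_comm m 2, div_eq_iff (pow_ne_zero _ hx0), mul_pow, h1]
    ring
  have hs0 : κ * r / x ^ m ≠ 0 := div_ne_zero (mul_ne_zero hκ hr0) (pow_ne_zero _ hx0)
  refine ⟨hx0, hval, hs0, ?_⟩
  intro σ hσf hσe hσκ hσβ hσx hσr n hn hprin
  set t := e + 1 / x with ht
  set s := κ * r / x ^ m with hs
  obtain ⟨A, B, c, hc, hN, hB⟩ := exists_relation f t s hval hs0 n hn hprin
  obtain ⟨A', B', c', hc', hN', hB', hdA, hdB⟩ := balance σ f hσf m hdeg β hβ hσβ t s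
    (by rw [ht, map_add, map_div₀, map_one, hσe, hσx])
    (by rw [hs, map_div₀, map_mul, map_pow, hσκ, hσx, hσr]; ring) hval hs0 A B c hc n hn hN hB
  have hmn : m ≤ n := by omega
  refine hrel (mob e n A') (C κ * mob e (n - m) B') (c' * (-x⁻¹) ^ (2 * n)) (2 * n)
    (mul_ne_zero hc' (pow_ne_zero _ (neg_ne_zero.mpr (inv_ne_zero hx0)))) (by omega) ?_ ?_
  · have e1 : f₁ * (C κ * mob e (n - m) B') ^ 2 = mob e (2 * n) (f * B' ^ 2) := by
      have e2 : 2 * n = 2 * m + 2 * (n - m) := by omega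
      rw [e2, mob_mul e (by omega) (by rw [natDegree_pow]; omega), mob_sq e (by omega), hf₁, C_pow]
      ring
    rw [e1, ← mob_sq e hdA, ← mob_sub, hN', mob_C_mul, mob_X_sub_pow]
    have e3 : t - e = x⁻¹ := by rw [ht]; ring
    have e4 : (1 - C (t - e) * X : E[X]) = C (-x⁻¹) * (X - C x) := by
      rw [e3, mul_sub, ← C_mul, neg_mul, inv_mul_cancel₀ hx0, C_neg, C_neg, C_1]; ring
    rw [e4, mul_pow, C_mul, C_pow, mul_assoc]
  · rw [eval_mul, eval_C, mob_eval e (by omega) hx0]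
    exact mul_ne_zero hκ (mul_ne_zero (pow_ne_zero _ hx0) hB')

end Even

end Pool.Agent.MPab1e31.Ev
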