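import Pool.Agent.MPab1e31Ev.Step
import Pool.Agent.MPab1e31Ev.NT

/-!
# Infinite rank of the class groups of hyperelliptic coordinate rings, even degree
-/

open scoped WithZero TensorProduct

open NumberField IsDedekindDomain Polynomial

namespace Pool.Agent.MPab1e31.Ev

open Pool.Agent.MPab1e31

section Domain

variable {k : Type*} [Field k]

theorem irreducible_eq (f : k[X]) (hf : ∀ c : k[X], f ≠ c ^ 2) :
    Irreducible (X ^ 2 - C f : k[X][X]) := by
  by_contra hirr
  rw [(Hyp.monic_eq f).not_irreducible_iff_exists_add_mul_eq_coeff (Hyp.natDegree_eq f)] at hirr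
  obtain ⟨c₁, c₂, h1, h2⟩ := hirr
  have h3 : (X ^ 2 - C f : k[X][X]).coeff 1 = 0 := by simp
  have h4 : (X ^ 2 - C f : k[X][X]).coeff 0 = -f := by simp
  rw [h4] at h1
  rw [h3] at h2
  have h5 : c₂ = -c₁ := by linear_combination -h2
  have h6 : f = c₁ ^ 2 := by rw [h5] at h1; linear_combination -h1
  exact hf c₁ h6

lemma not_sq (f : k[X]) (hsep : f.Separable) (hd : f.natDegree ≠ 0) (c : k[X]) : f ≠ c ^ 2 := by
  intro h
  have h1 : IsUnit c := hsep.squarefree c (by rw [h, sq])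
  apply hd
  rw [h, natDegree_pow, natDegree_eq_zero_of_isUnit h1]

theorem isDomain_CRing (f : k[X]) (hsep : f.Separable) (hd : f.natDegree ≠ 0) :
    IsDomain (Hyp.CRing f) :=
  AdjoinRoot.isDomain_of_prime (irreducible_eq f (not_sq f hsep hd)).prime

theorem isDomain_QA (f : k[X]) (hsep : f.Separable) (hd : f.natDegree ≠ 0) :
    IsDomain (QA k f) := by
  have := isDomain_CRing f hsep hd
  exact (qaEquiv f).toMulEquiv.isDomain

end Domain

section Points

variable {F₀ K Ω : Type*} [Field F₀] [NumberField F₀] [Field K] [Field Ω]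
    [Algebra F₀ K] [Algebra K Ω] [Algebra F₀ Ω] [IsScalarTower F₀ K Ω]
    [Algebra.IsAlgebraic F₀ K] [IsAlgClosed Ω] [Algebra.IsAlgebraic K Ω]

/-- Independent Galois invariant classes over the algebraic closure. -/
theorem even_exists_points [CharZero Ω] (hfg : IsTopFG (Ω ≃ₐ[K] Ω)) (f₀ : F₀[X]) (m₀ : ℕ)
    (hm : 2 ≤ m₀) (hdeg : f₀.natDegree = 2 * m₀) (hsep : f₀.Separable)
    [IsDomain (QA Ω (f₀.map (algebraMap F₀ Ω)))] (m : ℕ) :
    ∃ v : Fin m → Additive (ICl (QA Ω (f₀.map (algebraMap F₀ Ω)))), LinearIndependent ℤ v ∧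
      ∀ (k : Fin m) (γ : Ω ≃ₐ[K] Ω), rho f₀ (γ.restrictScalars F₀) (v k) = v k := by
  classical
  have : Algebra.IsAlgebraic F₀ Ω := Algebra.IsAlgebraic.trans F₀ K Ω
  have : Algebra.IsAlgebraic ℚ Ω := Algebra.IsAlgebraic.trans ℚ F₀ Ω
  have : IsAlgClosure F₀ Ω := ⟨inferInstance, inferInstance⟩
  have : Normal F₀ Ω := IsAlgClosure.normal F₀ Ω
  set g : Polynomial Ω := f₀.map (algebraMap F₀ Ω) with hg
  have hgdeg : g.natDegree = 2 * m₀ := by
    rw [hg, natDegree_map, hdeg]
  have hgsep : g.Separable := hsep.map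
  have hdomC : IsDomain (Hyp.CRing g) := isDomain_CRing g hgsep (by omega)
  have hg0 : g ≠ 0 := by
    intro h0
    rw [h0, natDegree_zero] at hgdeg
    omega
  obtain ⟨e, he⟩ := IsAlgClosed.exists_root g (by
    rw [degree_eq_natDegree hg0, hgdeg]
    have : 2 * m₀ ≠ 0 := by omega
    exact_mod_cast this)
  have he' : g.derivative.eval e ≠ 0 := by
    intro h0
    obtain ⟨a, b, hab⟩ := hgsep
    have h1 := congrArg (eval e) hab
    rw [eval_add, eval_mul, eval_mul, h0, he.eq_zero, mul_zero, mul_zero, add_zero, eval_one] at h1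
    exact zero_ne_one h1
  obtain ⟨f₁, hmon, hd₁, hf₁⟩ := exists_model g m₀ (by omega) hgdeg e he.eq_zero he'
  obtain ⟨κ, hκ⟩ := IsAlgClosed.exists_pow_nat_eq (g.derivative.eval e) (n := 2) (by norm_num)
  obtain ⟨β, hβ⟩ := IsAlgClosed.exists_pow_nat_eq g.leadingCoeff (n := 2) (by norm_num)
  have hκ0 : κ ≠ 0 := by
    rintro rfl
    apply he'
    rw [← hκ]; norm_num
  rw [← hκ] at hf₁
  -- the field `L`
  set T : Finset Ω := insert e (insert κ (insert β f₁.roots.toFinset)) with hT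
  set L₁ : IntermediateField F₀ Ω := IntermediateField.adjoin F₀ (T : Set Ω) with hL₁
  have hfin₁ : FiniteDimensional F₀ L₁ :=
    IntermediateField.finiteDimensional_adjoin (S := (T : Set Ω))
      fun x _ => (Algebra.IsAlgebraic.isAlgebraic (R := F₀) x).isIntegral
  set L : IntermediateField F₀ Ω := IntermediateField.normalClosure F₀ L₁ Ω with hL
  have : FiniteDimensional F₀ L := normalClosure.is_finiteDimensional F₀ L₁ Ω
  have : Normal F₀ L := normalClosure.normal F₀ L₁ Ω
  have : NumberField L := NumberField.of_module_finite F₀ L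
  have hTL : ∀ x ∈ T, x ∈ L := fun x hx =>
    IntermediateField.le_normalClosure L₁ (IntermediateField.subset_adjoin F₀ _ hx)
  have heL : e ∈ L := hTL _ (Finset.mem_insert_self _ _)
  have hκL : κ ∈ L := hTL _ (Finset.mem_insert_of_mem (Finset.mem_insert_self _ _))
  have hβL : β ∈ L := hTL _ (Finset.mem_insert_of_mem (Finset.mem_insert_of_mem
    (Finset.mem_insert_self _ _)))
  have hrL : ∀ x ∈ f₁.roots, x ∈ L := fun x hx => hTL _ (Finset.mem_insert_of_mem
    (Finset.mem_insert_of_mem (Finset.mem_insert_of_mem (Multiset.mem_toFinset.mpr hx))))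
  set S : Multiset L := f₁.roots.attach.map fun a => (⟨a.1, hrL a.1 a.2⟩ : L) with hS
  have hSmap : S.map (fun a : L => (a : Ω)) = f₁.roots := by
    rw [hS, Multiset.map_map]
    exact Multiset.attach_map_val _
  have hps : f₁.Splits := IsAlgClosed.splits f₁
  have hcard : Odd (Multiset.card S) := by
    have h1 : Multiset.card S = 2 * m₀ - 1 := by
      rw [← Multiset.card_map (fun a : L => (a : Ω)) S, hSmap, ← hps.natDegree_eq_card_roots, hd₁]
    rw [h1]
    exact ⟨m₀ - 1, by omega⟩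
  have hval : ∀ x : Ω, (S.map fun e : L => x - (e : Ω)).prod = f₁.eval x := by
    intro x
    have h2 := hps.eval_eq_prod_roots x
    rw [hmon.leadingCoeff, one_mul, ← hSmap, Multiset.map_map] at h2
    rw [h2]
    rfl
  obtain ⟨v, hv, hv2⟩ := Hyp.exists_abs Ω
  obtain ⟨P, hP2, -, hPC⟩ := Hyp.exists_bridge (L := L) (E := Ω) hv hv2
  obtain ⟨ϖ, hϖ⟩ := P.valuation_exists_uniformizer L
  obtain ⟨C₀, -, hC₀⟩ := even_nontorsion hv hv2 g m₀ hm hgdeg e κ β hκ0 hβ f₁ hmon hd₁ hf₁
  obtain ⟨C, hC⟩ := hPC C₀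
  refine exists_independent (rho f₀) L hfg S hcard
    (fun x r => pcl g (e + 1 / x) (κ * r / x ^ m₀)) ?_ ?_ (P.valuation L) ϖ hϖ C ?_ m
  · intro x s _
    have h1 : κ * -s / (x : Ω) ^ m₀ = -(κ * s / (x : Ω) ^ m₀) := by ring
    show pcl g _ (κ * -s / (x : Ω) ^ m₀) = _
    rw [h1]
    exact pcl_neg g _ _
  · intro γ hγ x s _
    show rho f₀ γ (pcl g _ _) = pcl g _ _
    rw [rho_pcl, map_add, map_div₀, map_div₀, map_mul, map_pow, map_one, hγ x x.2, hγ e heL,
      hγ κ hκL]
  · intro x hx s hs γ hγL hγs n hn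
    obtain ⟨-, h1, h2, h3⟩ := hC₀ (x : Ω) s (hs.trans (hval x)) (hC x hx)
    refine pcl_nontorsion g h1 h2 (h3 (γ : Ω →+* Ω) ?_ (hγL e heL) (hγL κ hκL) (hγL β hβL)
      (hγL x x.2) hγs) n hn
    rw [hg, Polynomial.map_map]
    congr 1
    exact (γ : Ω →ₐ[F₀] Ω).comp_algebraMap

/-- Independent classes over `K`. -/
theorem even_exists_classes [CharZero Ω] [CharZero K] (hfg : IsTopFG (Ω ≃ₐ[K] Ω)) (f₀ : F₀[X])
    (m₀ : ℕ) (hm : 2 ≤ m₀) (hdeg : f₀.natDegree = 2 * m₀) (hsep : f₀.Separable) (f : K[X])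
    (hf : f₀.map (algebraMap F₀ K) = f) [IsDomain (QA K f)] (m : ℕ) :
    ∃ v : Fin m → Additive (ICl (QA K f)), LinearIndependent ℤ v := by
  classical
  have : IsAlgClosure K Ω := ⟨inferInstance, inferInstance⟩
  have : Normal K Ω := IsAlgClosure.normal K Ω
  have : IsGalois K Ω := ⟨⟩
  have hdom : IsDomain (QA Ω (f₀.map (algebraMap F₀ Ω))) := by
    refine isDomain_QA _ hsep.map ?_
    rw [Polynomial.natDegree_map, hdeg]
    omega
  obtain ⟨v, hv, hfix⟩ := even_exists_points (K := K) hfg f₀ m₀ hm hdeg hsep m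
  have hfg' : f.map (algebraMap K Ω) = f₀.map (algebraMap F₀ Ω) := by
    rw [← hf, Polynomial.map_map, ← IsScalarTower.algebraMap_eq]
  have key : ∀ k : Fin m, ∃ n : ℕ, 0 < n ∧ ∃ d : ICl (QA K f),
      clMap (qmap (algebraMap K Ω) hfg') (qmap_injective _ _) d = (v k).toMul ^ n := by
    intro k
    refine exists_pow_of_fixed' f _ hfg' (v k).toMul fun γ h => ?_
    have h1 := hfix k γ
    rw [rho_apply] at h1
    exact Additive.ofMul.injective h1
  choose n hn d hd using key
  refine ⟨fun k => Additive.ofMul (d k), ?_⟩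
  set E : Additive (ICl (QA K f)) →ₗ[ℤ] Additive (ICl (QA Ω (f₀.map (algebraMap F₀ Ω)))) :=
    (clMap (qmap (algebraMap K Ω) hfg') (qmap_injective _ _)).toAdditive.toIntLinearMap with hE
  have hEd : ∀ k, E (Additive.ofMul (d k)) = (n k : ℤ) • v k := by
    intro k
    show Additive.ofMul (clMap (qmap (algebraMap K Ω) hfg') (qmap_injective _ _) (d k)) = _
    rw [hd, ofMul_pow, ofMul_toMul, natCast_zsmul]
  refine LinearIndependent.of_comp E ?_
  rw [linearIndependent_iff'] at hv ⊢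
  intro s c hc k hk
  have h1 : ∑ i ∈ s, (c i * (n i : ℤ)) • v i = 0 := by
    rw [← hc]
    refine Finset.sum_congr rfl fun i _ => ?_
    rw [mul_smul, ← hEd]
    rfl
  have h2 := hv s _ h1 k hk
  have h4 : (n k : ℤ) ≠ 0 := by exact_mod_cast (hn k).ne'
  exact (mul_eq_zero.mp h2).resolve_right h4

end Points

section Final

/-- A polynomial over an algebraic extension of `ℚ` is defined over a number field. -/
lemma exists_model_poly (K : Type*) [Field K] [CharZero K] [Algebra.IsAlgebraic ℚ K] (f : K[X]) :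
    ∃ (F₀ : IntermediateField ℚ K) (_ : FiniteDimensional ℚ F₀) (f₀ : Polynomial F₀),
      f₀.map (algebraMap F₀ K) = f := by
  classical
  set F₀ : IntermediateField ℚ K := IntermediateField.adjoin ℚ (f.coeffs : Set K) with hF₀
  have hfin : FiniteDimensional ℚ F₀ :=
    IntermediateField.finiteDimensional_adjoin (S := (f.coeffs : Set K))
      fun x _ => (Algebra.IsAlgebraic.isAlgebraic (R := ℚ) x).isIntegral
  have hmem : ∀ i, f.coeff i ∈ F₀ := by
    intro i
    by_cases h0 : f.coeff i = 0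
    · rw [h0]
      exact zero_mem _
    · exact IntermediateField.subset_adjoin ℚ _ (Polynomial.coeff_mem_coeffs h0)
  have h1 : f ∈ Polynomial.lifts (algebraMap F₀ K) := by
    rw [Polynomial.lifts_iff_coeff_lifts]
    intro n
    exact ⟨⟨f.coeff n, hmem n⟩, rfl⟩
  obtain ⟨f₀, hf₀⟩ := (Polynomial.mem_lifts _).mp h1
  exact ⟨F₀, hfin, f₀, hf₀⟩

/-- The group of ideal classes. -/
theorem even_classes (K : Type*) [Field K] [CharZero K] [Algebra.IsAlgebraic ℚ K]
    (hK : IsTopFG (AlgebraicClosure K ≃ₐ[K] AlgebraicClosure K)) (f : K[X]) (m₀ : ℕ)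
    (hm : 2 ≤ m₀) (hdeg : f.natDegree = 2 * m₀) (hsep : f.Separable) [IsDomain (QA K f)] (m : ℕ) :
    ∃ v : Fin m → Additive (ICl (QA K f)), LinearIndependent ℤ v := by
  obtain ⟨F₀, hfin, f₀, hf₀⟩ := exists_model_poly K f
  have : NumberField F₀ := ⟨⟩
  have : Algebra.IsAlgebraic F₀ K := Algebra.IsAlgebraic.tower_top (K := ℚ) F₀
  have hdeg₀ : f₀.natDegree = 2 * m₀ := by
    rw [← hdeg, ← hf₀, Polynomial.natDegree_map]
  have hsep₀ : f₀.Separable := by
    rw [← hf₀] at hsep
    exact (Polynomial.separable_map _).mp hsep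
  have : CharZero (AlgebraicClosure K) := charZero_of_injective_algebraMap
    (algebraMap K (AlgebraicClosure K)).injective
  exact even_exists_classes (F₀ := F₀) (Ω := AlgebraicClosure K) hK f₀ m₀ hm hdeg₀ hsep₀ f hf₀ m

/-- **Infinite rank for hyperelliptic curves, even degree.** -/
theorem even_infinite_rank (K : Type*) [Field K] [CharZero K] [Algebra.IsAlgebraic ℚ K]
    (hK : IsTopFG (AlgebraicClosure K ≃ₐ[K] AlgebraicClosure K)) (f : K[X])
    (heven : Even f.natDegree) (h4 : 4 ≤ f.natDegree) (hsep : Squarefree f)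
    [IsDomain (AdjoinRoot (X ^ 2 - C f : K[X][X]))] :
    ¬ Module.Finite ℚ (ℚ ⊗[ℤ] Additive (ClassGroup (AdjoinRoot (X ^ 2 - C f : K[X][X])))) := by
  obtain ⟨m₀, hm₀⟩ := heven
  have hsep' : f.Separable := PerfectField.separable_iff_squarefree.mpr hsep
  have hdom : IsDomain (QA K f) := isDomain_QA f hsep' (by omega)
  refine not_finite_of_independent fun m => ?_
  obtain ⟨v, hv⟩ := even_classes K hK f m₀ (by omega) (by omega) hsep' m
  set Φ : ICl (QA K f) →* ClassGroup (AdjoinRoot (X ^ 2 - C f : K[X][X])) :=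
    (ClassGroup.mulEquiv (qaEquiv f)).toMonoidHom.comp toClassGroup with hΦ
  have hΦi : Function.Injective Φ := by
    rw [hΦ]
    exact (ClassGroup.mulEquiv (qaEquiv f)).injective.comp toClassGroup_injective
  refine ⟨fun k => Φ.toAdditive (v k), ?_⟩
  exact hv.map_injOn Φ.toAdditive.toIntLinearMap (hΦi.injOn)

end Final

end Pool.Agent.MPab1e31.Ev
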